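import Pool.Agent.W399.WP.Stm

/-!
# Chains of nodes: `S_NOD`, `S_CHN`, `S_VRC`

Part CHN of the project on cancellative semigroups with context-free word problem (MP_dd8e80_al).
-/

set_option autoImplicit false

namespace Pool.Agent.W318.WP399

open Pool.Agent.W399.WP

theorem bw_nil {A : Type} : bw ([] : List (Blk A)) = [] := by simp [bw]

theorem bw_cons {A : Type} (B : Blk A) (Bs : List (Blk A)) : bw (B :: Bs) = bw Bs ++ B.1 := by
  simp [bw]

theorem bw_append {A : Type} (Bs Cs : List (Blk A)) : bw (Bs ++ Cs) = bw Cs ++ bw Bs := by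
  simp [bw]

/-- (NOD) Nodes are genuine. -/
theorem nod : S_NOD := by
  intro M _ A φ D Dp Low
  induction Low with
  | nil =>
    intro n hn
    have hn' : n = ([], D.top) := hn
    subst hn'
    exact ⟨[], [], by simp [bw], Step.refl _⟩
  | cons B Bs ih =>
    intro n hn
    obtain ⟨hl, n', hn', w, v, h1, h2⟩ := hn
    obtain ⟨t, a, ha, hs⟩ := ih n' hn'
    refine ⟨t ++ v, a ++ w, ?_, hs.trans h2⟩
    rw [bw_cons, ha, List.append_assoc, h1, List.append_assoc]

/-- The chain lemma: a completion of a node passes through a node at every higher level. -/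
theorem chain {M : Type} [CancelMonoid M] {A : Type} {φ : A → M} (D : CFData φ) {ρ Dp : ℕ}
    (hK : Kp φ D ρ Dp) (Mid : List (Blk A)) :
    ∀ (Top Low : List (Blk A)) (n : List A × D.X) (v : List A),
    Good φ ρ (Top ++ Mid ++ Low) → n ∈ ND D Dp Low → (n.1 ++ bw (Top ++ Mid), v) ∈ D.C n.2 →
    ∃ (n₂ : List A × D.X) (w v₂ v₃ : List A), v = v₂ ++ v₃ ∧ n₂ ∈ ND D Dp (Mid ++ Low) ∧
      n.1 ++ bw Mid = w ++ n₂.1 ∧ Step D.C n.2 w v₂ n₂.2 ∧
      (n₂.1 ++ bw Top, v₃) ∈ D.C n₂.2 := by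
  induction Mid using List.reverseRecOn with
  | nil =>
    intro Top Low n v hG hn hv
    exact ⟨n, [], [], v, rfl, by simpa using hn, by simp [bw], Step.refl _, by simpa using hv⟩
  | append_singleton Mid' B ih =>
    intro Top Low n v hG hn hv
    have e1 : n.1 ++ bw (Top ++ (Mid' ++ [B])) = (n.1 ++ B.1) ++ bw (Top ++ Mid') := by
      rw [← List.append_assoc Top, bw_append (Top ++ Mid') [B], bw_cons, bw_nil]
      simp
    rw [e1] at hv
    obtain ⟨y, a, b₁, b₂, c, v₁, v₂, h1, h2, h3, h4, h5, h6⟩ := D.uside _ _ _ _ hv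
    obtain ⟨t, a', ha', -⟩ := nod M _ A φ D Dp Low n hn
    have hG' : Good φ ρ (Top ++ Mid' ++ (B :: Low)) := by
      have e2 : Top ++ Mid' ++ (B :: Low) = Top ++ (Mid' ++ [B]) ++ Low := by simp
      rw [e2]
      exact hG
    have hlen : b₁.length ≤ Dp := by
      rcases h6 with ⟨h, -⟩ | ⟨hb1, hb2, hE⟩
      · simp [h]
      · refine hK (Top ++ Mid') (B :: Low) (a' ++ a) b₁ b₂ c hG' ?_ h2 hb1 hb2 hE
        rw [bw_cons, ha', List.append_assoc, h1, List.append_assoc]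
    have hnew : ((b₁, y) : List A × D.X) ∈ ND D Dp (B :: Low) :=
      ⟨hlen, n, hn, a, v₁, h1, h4⟩
    obtain ⟨n₂, w, v₂', v₃, k1, k2, k3, k4, k5⟩ := ih Top (B :: Low) (b₁, y) v₂ hG' hnew h5
    refine ⟨n₂, a ++ w, v₁ ++ v₂', v₃, by rw [h3, k1, List.append_assoc], by simpa using k2, ?_,
      h4.trans k4, k5⟩
    have k3' : b₁ ++ bw Mid' = w ++ n₂.1 := k3
    rw [bw_append, bw_cons, bw_nil, List.nil_append, ← List.append_assoc, h1, List.append_assoc,
      k3', List.append_assoc]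

/-- (CHN) Every word for the value passes nodes at two given levels. -/
theorem chn : S_CHN := by
  intro M _ A φ D ρ Dp hK Top Mid Low v hG hv
  have h0 : (([] : List A) ++ bw (Top ++ Mid ++ Low), v) ∈ D.C D.top := by
    rw [D.hC]
    exact hv.symm
  have hG0 : Good φ ρ (Top ++ Mid ++ Low ++ []) := by
    rw [List.append_nil]
    exact hG
  obtain ⟨n₁, w₁, v₁, v', e1, m1, a1, s1, c1⟩ :=
    chain D hK Low (Top ++ Mid) [] ([], D.top) v hG0 (Set.mem_singleton _) h0
  rw [List.append_nil] at m1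
  obtain ⟨n₂, w, v₂, v₃, e2, m2, a2, s2, c2⟩ := chain D hK Mid Top Low n₁ v' hG m1 c1
  refine ⟨n₁, n₂, v₁, v₂, v₃, w, by rw [e1, e2, List.append_assoc], m1, m2, ⟨w₁, ?_, s1⟩, a2, s2,
    c2⟩
  simpa using a1

/-- (VRC) Recursion for the continuable nodes. -/
theorem vrc : S_VRC := by
  intro M _ A φ D ρ Dp hK Top Mid Low hG
  ext n
  constructor
  · rintro ⟨hn, V, hV⟩
    obtain ⟨n₂, w, v₂, v₃, e2, m2, a2, s2, c2⟩ := chain D hK Mid Top Low n V hG hn hV
    exact ⟨hn, n₂, ⟨m2, v₃, c2⟩, w, v₂, a2, s2⟩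
  · rintro ⟨hn, n₂, ⟨m2, V, hV⟩, w, v, hw, hs⟩
    refine ⟨hn, v ++ V, ?_⟩
    have h := hs _ _ hV
    rwa [← List.append_assoc, ← hw, List.append_assoc, ← bw_append] at h

end Pool.Agent.W318.WP399
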